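import Pool.Agent.L0h86.JS.StmN

/-!
# Module LOC7 of project JS (helper86): the local analysis
-/

set_option autoImplicit false
set_option linter.unusedSectionVars false
set_option linter.unusedVariables false

namespace Pool.Agent.L0h36.JS

open Pool.Agent.Y715.Red Pool.Agent.Y715.Nr Pool.Agent.W237.RK
open Pool.Agent.Y715.Gi (QB)
open Pool.Agent.Y715.Lc (norm_two_odd)
open Pool.Agent.R384 (vl Coc CobOn md md_zero md_cont md_mul md_eq vl_sub_one vl_one vl_mul
  norm_two' loc_triv loc_four dec_of_inert add_lt' norm_lt_one)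
open Pool.Agent.Z384 (exists_cmpQ val_of_norm sqf_odd keyQ DQ)
open Pool.Agent.N848.Q
open Pool.Agent.L0h86.JS

variable {χ : G →* ℤ_[2]ˣ} {r : QB}

/-- the local analysis of `vanish`, for the character of the square root of `n e`, `n = 1, 2` -/
theorem loc_an (cd : ChiQ χ r) {m : ℤ} (hr : r ^ 2 = m) (hm : Squarefree m.natAbs)
    {c : G → ℚ_[2]} (hcc : Coc χ c) (hint : ∀ σ, ‖c σ‖ ≤ 1)
    (hodd : ∀ (p : ℕ) [Fact p.Prime] (ι : QB →ₐ[ℚ] PadicAlgCl p), p ≠ 2 →
      CobOn χ (II ι : Set G) c)
    {n e : ℤ} (hn : n = 1 ∨ n = 2) {t : QB} (he : Squarefree e.natAbs) (he8 : e % 8 = 1)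
    (ht : t ^ 2 = ((n * e : ℤ) : QB)) (hk : ∀ σ : G, σ t = t ↔ md c σ = 0) :
    ∃ b, m = e * b ∧ (0 < m → 0 < e) ∧ ∀ q : ℕ, q.Prime → q ≠ 2 →
      (((q : ℤ) ∣ b → IsSquare ((n * e : ℤ) : ZMod q)) ∧
        ((q : ℤ) ∣ e → IsSquare ((n * b : ℤ) : ZMod q))) := by
  classical
  have hm0 : m ≠ 0 := by
    rintro rfl
    rw [Int.natAbs_zero] at hm
    exact not_squarefree_zero hm
  have he0 : e ≠ 0 := by
    rintro rfl
    rw [Int.natAbs_zero] at he
    exact not_squarefree_zero he
  have hn0 : n ≠ 0 := by rcases hn with h | h <;> rw [h] <;> norm_num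
  have hne0 : n * e ≠ 0 := mul_ne_zero hn0 he0
  have hnp : 0 < n := by rcases hn with h | h <;> rw [h] <;> norm_num
  have hsq : Squarefree (n * e).natAbs := by
    rcases hn with h | h
    · rw [h, one_mul]; exact he
    · rw [h, Int.natAbs_mul, Nat.squarefree_mul_iff]
      refine ⟨?_, Nat.prime_two.prime.squarefree, he⟩
      rw [show (2 : ℤ).natAbs = 2 from rfl, Nat.coprime_two_left, Nat.odd_iff]
      omega
  have hqn : ∀ q : ℕ, q.Prime → q ≠ 2 → ¬ (q : ℤ) ∣ n := by
    intro q hq hq2 hd
    rcases hn with h | h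
    · rw [h] at hd
      have h1 := Int.natCast_dvd.1 hd
      exact hq.one_lt.ne' (Nat.dvd_one.1 h1)
    · rw [h] at hd
      have h1 := Int.natCast_dvd.1 hd
      exact hq2 ((Nat.prime_dvd_prime_iff_eq hq Nat.prime_two).1 h1)
  have ht0 : t ≠ 0 := by
    rintro rfl
    apply hne0
    have h1 : ((n * e : ℤ) : QB) = 0 := by rw [← ht]; ring
    exact_mod_cast h1
  have hor := root_or' ht
  have hmd : ∀ σ, c σ = 0 → md c σ = 0 := fun σ h => md_zero.2 (by rw [h, norm_zero]; norm_num)
  -- the prime divisors of `e` divide `m`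
  have hpm : ∀ p : ℕ, p.Prime → p ∣ e.natAbs → p ≠ 2 ∧ p ∣ m.natAbs := by
    intro p hp hpe
    have hp2 : p ≠ 2 := by
      rintro rfl
      omega
    refine ⟨hp2, ?_⟩
    by_contra hpm
    have : Fact p.Prime := ⟨hp⟩
    obtain ⟨κ⟩ := exists_iota p
    have hpe' : p ∣ (n * e).natAbs := by
      rw [Int.natAbs_mul]
      exact hpe.mul_left _
    refine not_dvd_of_fix (ι := κ) hsq ht (fun σ hσ => (hk σ).2 ?_) hpe'
    refine loc_triv (hodd p κ hp2) (fun σ hσ => ?_) σ hσ
    -- `r` is fixed by the inertia group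
    have hrσ : σ r = r := by
      rcases cd.or σ with h | h
      · exact h
      · exfalso
        obtain ⟨τ, hτ, hin⟩ := hσ
        have h3 : (κ r) ^ 2 = (m : PadicAlgCl p) := by rw [← map_pow, hr, map_intCast]
        have h4 : ‖(m : PadicAlgCl p)‖ = 1 := by
          have h5 := Pool.Agent.W327.RK.norm_nat (p := p) hpm
          rcases Int.natAbs_eq m with h6 | h6
          · have h7 : (m : PadicAlgCl p) = ((m.natAbs : ℕ) : PadicAlgCl p) := by
              conv_lhs => rw [h6]
              exact Int.cast_natCast _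
            rw [h7, h5]
          · have h7 : (m : PadicAlgCl p) = -((m.natAbs : ℕ) : PadicAlgCl p) := by
              conv_lhs => rw [h6]
              rw [Int.cast_neg, Int.cast_natCast]
            rw [h7, norm_neg, h5]
        have h5 : ‖κ r‖ = 1 := by
          rw [← h3, norm_pow] at h4
          exact (pow_eq_one_iff_of_nonneg (norm_nonneg _) two_ne_zero).1 h4
        have h6 := hin (κ r) h5.le
        rw [hτ, h, map_neg] at h6
        have e2 : -κ r - κ r = -(2 * κ r) := by ring
        rw [e2, norm_neg, norm_mul, norm_two_odd hp2, h5, one_mul] at h6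
        exact lt_irrefl _ h6
    unfold vl
    rw [(cd.inert p κ hp2 σ hσ).1 hrσ]
    simp
  have hem : e ∣ m := by
    rw [← Int.natAbs_dvd_natAbs, ← Nat.prod_primeFactors_of_squarefree he,
      ← Nat.prod_primeFactors_of_squarefree hm]
    apply Finset.prod_dvd_prod_of_subset
    intro p hp
    have hpp := Nat.prime_of_mem_primeFactors hp
    exact Nat.mem_primeFactors.2 ⟨hpp, (hpm p hpp (Nat.dvd_of_mem_primeFactors hp)).2,
      Int.natAbs_ne_zero.2 hm0⟩
  obtain ⟨b, hb⟩ := hem
  have hb0 : b ≠ 0 := by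
    rintro rfl
    exact hm0 (by rw [hb, mul_zero])
  -- coprimality
  have hcop : ∀ q : ℕ, q.Prime → (q : ℤ) ∣ e → ¬ (q : ℤ) ∣ b := by
    intro q hq h1 h2
    have h3 : (q : ℤ) * q ∣ m := by
      rw [hb]
      exact mul_dvd_mul h1 h2
    have h4 : q * q ∣ m.natAbs := by
      rw [← Int.natAbs_dvd_natAbs] at h3
      simpa [Int.natAbs_mul] using h3
    exact hq.not_isUnit (hm q h4)
  refine ⟨b, hb, ?_, ?_⟩
  · -- the sign
    intro hmpos
    by_contra hneg
    have he' : ((n * e : ℤ) : ℚ) < 0 := by
      have h1 : e < 0 := lt_of_le_of_ne (not_lt.1 hneg) he0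
      have h2 : n * e < 0 := mul_neg_of_pos_of_neg hnp h1
      exact_mod_cast h2
    obtain ⟨cc, hcc2, hccr⟩ := exists_cc
    have h3 : cc r = r := (hccr r m (by rw [hr]; simp)).1 (by exact_mod_cast hmpos)
    have h4 : cc t = -t := (hccr t ((n * e : ℤ) : ℚ) (by rw [ht]; simp)).2 he'
    have h5 : vl χ cc = 1 := by
      have h6 := cd.one cc h3
      have h7 : χ cc * χ cc = 1 := by rw [← map_mul, hcc2, map_one]
      have h8 : ((χ cc : ℤ_[2])) * (χ cc : ℤ_[2]) = 1 := by
        rw [← Units.val_mul, h7, Units.val_one]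
      have h9 : ((χ cc : ℤ_[2]) - 1) * ((χ cc : ℤ_[2]) + 1) = 0 := by linear_combination h8
      rcases mul_eq_zero.1 h9 with h10 | h10
      · unfold vl
        rw [sub_eq_zero.1 h10]
        simp
      · exfalso
        have h11 : χ cc = -1 := Units.ext (by
          rw [Units.val_neg, Units.val_one]
          linear_combination h10)
        rw [h11, ph_neg_one] at h6
        exact absurd h6 (by decide)
    have h6 := hcc.mul cc cc
    rw [hcc2, hcc.one, h5] at h6
    have h7 : c cc = 0 := by
      have h8 : (2 : ℚ_[2]) * c cc = 0 := by linear_combination -h6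
      exact (mul_eq_zero.1 h8).resolve_left two_ne_zero
    have h8 := (hk cc).2 (hmd cc h7)
    rw [h4] at h8
    exact ne_neg ht0 h8.symm
  · -- the local conditions
    intro q hq hq2
    have : Fact q.Prime := ⟨hq⟩
    obtain ⟨κ⟩ := exists_iota q
    have hqne : (q : ℤ) ∣ e → q ∣ (n * e).natAbs := by
      intro h
      exact Int.natCast_dvd.1 (h.mul_left _)
    have main : (q : ℤ) ∣ m → (¬ (q : ℤ) ∣ e ∧ IsSquare ((n * e : ℤ) : ZMod q)) ∨
        ((q : ℤ) ∣ e ∧ IsSquare ((n * b : ℤ) : ZMod q)) := by
      intro hqm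
      have hqm' : q ∣ m.natAbs := Int.natCast_dvd.1 hqm
      obtain ⟨σ₃, h3, h4⟩ : ∃ σ ∈ II κ, σ r = -r := by
        by_contra hall
        push Not at hall
        refine not_dvd_of_fix (ι := κ) hm hr (fun σ hσ => ?_) hqm'
        exact (cd.or σ).resolve_right (hall σ hσ)
      have hχ : vl χ σ₃ = -1 := by
        unfold vl
        rw [(cd.inert q κ hq2 σ₃ h3).2 h4]
        simp
      have hD : CobOn χ (DD κ : Set G) c :=
        dec_of_inert hcc (hodd q κ hq2) h3 hχ fun τ hτ => conj_mem h3 hτ
      rcases loc_dich cd hint hD (II_le h3) h4 hor hk with h | h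
      · left
        refine ⟨fun h5 => ?_, sq_of_fix ht h⟩
        exact not_dvd_of_fix (ι := κ) hsq ht (fun σ hσ => h σ (II_le hσ)) (hqne h5)
      · right
        have hsr : (t * r) ^ 2 = ((n * e * m : ℤ) : QB) := by
          rw [mul_pow, ht, hr]
          push_cast
          ring
        have h5 : (q : ℤ) ∣ e := by
          by_contra h6
          have h7 := even_val (ι := κ) (mul_ne_zero hne0 hm0) hsr fun σ hσ => h σ (II_le hσ)
          have h8 : padicValRat q ((n * e * m : ℤ) : ℚ) = 1 := by
            have h9 : padicValRat q ((n * e * m : ℤ) : ℚ) = padicValInt q (n * e * m) := by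
              rw [padicValRat.of_int]
            rw [h9, padicValInt.mul hne0 hm0, padicValInt.mul hn0 he0,
              padicValInt.eq_zero_of_not_dvd h6,
              padicValInt.eq_zero_of_not_dvd (hqn q hq hq2), zero_add, zero_add]
            have h10 : padicValNat q m.natAbs = 1 := by
              have h7 : 1 ≤ padicValNat q m.natAbs :=
                one_le_padicValNat_of_dvd (Int.natAbs_ne_zero.2 hm0) hqm'
              have h8 : padicValNat q m.natAbs < 2 := by
                by_contra h9
                push Not at h9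
                have h10 : q ^ 2 ∣ m.natAbs := (pow_dvd_pow q h9).trans pow_padicValNat_dvd
                rw [pow_two] at h10
                exact hq.not_isUnit (hm q h10)
              omega
            show ((padicValNat q m.natAbs : ℕ) : ℤ) = 1
            rw [h10]
            rfl
          rw [h8] at h7
          exact absurd h7 (by decide)
        refine ⟨h5, ?_⟩
        have he0' : (e : QB) ≠ 0 := by exact_mod_cast he0
        refine sq_of_fix (ι := κ) (t := t * r / e) ?_ fun σ hσ => ?_
        · rw [div_pow, hsr, hb, div_eq_iff (pow_ne_zero _ he0')]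
          push_cast
          ring
        · rw [map_div₀, h σ hσ, map_intCast]
    constructor
    · intro h3
      have hqm : (q : ℤ) ∣ m := by rw [hb]; exact h3.mul_left _
      rcases main hqm with h | h
      · exact h.2
      · exact absurd h3 (hcop q hq h.1)
    · intro h3
      have hqm : (q : ℤ) ∣ m := by rw [hb]; exact h3.mul_right _
      rcases main hqm with h | h
      · exact absurd h3 h.1
      · exact h.2

theorem t_LOC7 : S_LOC7 := by
  intro χ r m cd hr hm c hcc hint hodd w e t hw he he8 ht hk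
  exact loc_an cd hr hm hcc hint hodd hw he he8 ht hk

end Pool.Agent.L0h36.JS
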