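import Pool.Agent.L0h36.JS.LOC7

/-!
# Module VAN7 of project JS (helper86): the vanishing in the split case
-/

set_option autoImplicit false
set_option linter.unusedSectionVars false
set_option linter.unusedVariables false

namespace Pool.Agent.L0h36.JS

open Pool.Agent.Y715.Red Pool.Agent.Y715.Nr Pool.Agent.W237.RK
open Pool.Agent.Y715.Gi (QB)
open Pool.Agent.Y715.Lc (norm_two_odd)
open Pool.Agent.R384 (vl Coc CobOn md md_zero md_cont md_mul md_eq vl_sub_one vl_one vl_mul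
  norm_two' loc_triv loc_four dec_of_inert add_lt' norm_lt_one)
open Pool.Agent.Z384 (exists_cmpQ val_of_norm sqf_odd keyQ DQ)
open Pool.Agent.N848.Q
open Pool.Agent.L0h86.JS

variable {χ : G →* ℤ_[2]ˣ} {r : QB}

/-- the quadratic characters which are trivial at two -/
theorem key_or (h : G → ZMod 2) (hc : IsLocallyConstant h) (hm : ∀ σ τ, h (σ * τ) = h σ + h τ)
    {ι : QB →ₐ[ℚ] PadicAlgCl 2} (h2 : ∀ σ ∈ DD ι, h σ = 0) :
    ∃ (e : ℤ) (t : QB), Squarefree e.natAbs ∧ e % 8 = 1 ∧ t ^ 2 = e ∧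
      ∀ σ : G, σ t = t ↔ h σ = 0 := by
  by_cases hall : ∀ σ, h σ = 0
  · exact ⟨1, 1, by simp, by norm_num, by simp, fun σ => ⟨fun _ => hall σ, fun _ => map_one σ⟩⟩
  · by_contra hcon
    apply hall
    refine keyQ h hc hm (ι := ι) (fun σ hσ => h2 σ hσ) ?_
    intro e he he8 hne t ht
    by_contra hcon2
    push Not at hcon2
    apply hcon
    refine ⟨e, t, he, he8, ht, ?_⟩
    have he0 : e ≠ 0 := by
      rintro rfl
      rw [Int.natAbs_zero] at he
      exact not_squarefree_zero he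
    have ht0 : t ≠ 0 := by
      rintro rfl
      apply he0
      have h1 : (e : QB) = 0 := by rw [← ht]; ring
      exact_mod_cast h1
    have hor := root_or' ht
    obtain ⟨σ₂, h3⟩ : ∃ σ : G, σ t ≠ t := by
      by_contra hall
      push Not at hall
      exact hne (eq_one_of_fix he ht hall)
    have h2' : σ₂ t = -t := (hor σ₂).resolve_left h3
    have h01 : ∀ x : ZMod 2, x ≠ 0 → x = 1 := by decide
    have hk2 : h σ₂ = 1 := h01 _ fun h => h3 (hcon2 σ₂ h)
    intro σ
    refine ⟨fun h4 => ?_, hcon2 σ⟩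
    by_contra h5
    have h6 : h (σ * σ₂) = 0 := by
      rw [hm, h01 _ h5, hk2]
      decide
    have h7 := hcon2 _ h6
    rw [AlgEquiv.mul_apply, h2', map_neg, h4] at h7
    exact ne_neg ht0 h7.symm

lemma eight_dvd (z : ℤ_[2]) : (8 : ℤ_[2]) ∣ z ↔ ‖(z : ℚ_[2])‖ < 1 / 4 := by
  have n2 : ‖(2 : ℚ_[2])‖ = 1 / 2 := norm_two'
  constructor
  · rintro ⟨w, rfl⟩
    rw [PadicInt.padic_norm_e_of_padicInt, norm_mul]
    have h4 : ‖(8 : ℤ_[2])‖ = 1 / 8 := by
      have e : (8 : ℤ_[2]) = 2 ^ 3 := by norm_num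
      have e2 : ‖(2 : ℤ_[2])‖ = 1 / 2 := by
        have := PadicInt.norm_p (p := 2)
        simpa using this
      rw [e, norm_pow, e2]
      norm_num
    rw [h4]
    have := PadicInt.norm_le_one w
    linarith
  · intro h
    have h1 : ‖(z : ℚ_[2]) / 2 / 2‖ < 1 := by
      rw [norm_div, norm_div, n2]
      linarith
    have h2 := norm_lt_one h1
    rw [norm_div, norm_div, n2] at h2
    have h3 : ‖z‖ ≤ (2 : ℝ) ^ (-(3 : ℕ) : ℤ) := by
      rw [← PadicInt.padic_norm_e_of_padicInt]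
      have e : (2 : ℝ) ^ (-(3 : ℕ) : ℤ) = 1 / 8 := by norm_num
      rw [e]
      linarith
    have h4 := (PadicInt.norm_le_pow_iff_mem_span_pow (p := 2) z 3).1 (by exact_mod_cast h3)
    rw [Ideal.mem_span_singleton] at h4
    have e : ((2 : ℕ) : ℤ_[2]) ^ 3 = 8 := by norm_num
    rwa [e] at h4

theorem t_VAN7 : S_VAN7 := by
  intro χ r s₂ m cd hr hm hm8 hs2 hD8 hC c hc hodd htwo
  classical
  obtain ⟨ι⟩ := exists_iota 2
  obtain ⟨y, hy⟩ := htwo ι
  refine ⟨y, ?_⟩
  by_contra hcon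
  push Not at hcon
  obtain ⟨σ₁, hσ₁⟩ := hcon
  -- the cocycle which vanishes on the decomposition group
  have hc1 : Coc χ (fun σ => 1 * c σ + (vl χ σ - 1) * (-y)) := hc.twist cd.cont 1 (-y)
  set c₁ : G → ℚ_[2] := fun σ => 1 * c σ + (vl χ σ - 1) * (-y) with hc₁
  obtain ⟨a, ha, hint0, σ₀, hσ₀⟩ := exists_scale hc1.cont (σ₁ := σ₁) (by
    intro h
    apply hσ₁
    rw [hc₁] at h
    linear_combination h)
  have hcc : Coc χ (fun σ => a * c₁ σ + (vl χ σ - 1) * 0) := hc1.twist cd.cont a 0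
  set c' : G → ℚ_[2] := fun σ => a * c₁ σ + (vl χ σ - 1) * 0 with hc'
  have hint : ∀ σ, ‖c' σ‖ ≤ 1 := by
    intro σ
    rw [hc']
    simp only [mul_zero, add_zero]
    exact hint0 σ
  have hone : c' σ₀ = 1 := by
    rw [hc']
    simp only [mul_zero, add_zero]
    exact hσ₀
  have hodd' : ∀ (p : ℕ) [Fact p.Prime] (ι : QB →ₐ[ℚ] PadicAlgCl p), p ≠ 2 →
      CobOn χ (II ι : Set G) c' := fun p _ κ hp => ((hodd p κ hp).twist 1 (-y)).twist a 0
  have hstr' : ∀ σ ∈ DD ι, c' σ = 0 := by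
    intro σ hσ
    rw [hc', hc₁]
    simp only [hy σ hσ]
    ring
  have hmd : ∀ σ, c' σ = 0 → md c' σ = 0 := fun σ h => md_zero.2 (by rw [h, norm_zero]; norm_num)
  clear_value c'
  have hm0 : m ≠ 0 := by
    rintro rfl
    rw [Int.natAbs_zero] at hm
    exact not_squarefree_zero hm
  -- the reduction of `c'` is the character of `r`
  obtain ⟨e, t, he, he8, ht, hk⟩ := key_or (md c') (md_cont hcc) (md_mul hcc hint) (ι := ι)
    (fun σ hσ => hmd σ (hstr' σ hσ))
  obtain ⟨b, hb, hsgn, hloc⟩ := loc_an cd hr hm hcc hint hodd' (n := 1) (Or.inl rfl) he he8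
    (by rw [ht, one_mul]) hk
  have hrk : ∀ σ : G, σ r = r ↔ md c' σ = 0 := by
    rcases hC.1 e b hb he8 hsgn (fun q hq hq2 => by
      have h := hloc q hq hq2
      rw [one_mul, one_mul] at h
      exact h) with h1 | h1
    · exfalso
      rw [h1, Int.cast_one] at ht
      have h2 : ∀ σ : G, σ t = t := by
        intro σ
        rcases sq_eq_one_iff.1 ht with h3 | h3
        · rw [h3, map_one]
        · rw [h3, map_neg, map_one]
      have h5 : ‖c' σ₀‖ < 1 := md_zero.1 ((hk σ₀).1 (h2 σ₀))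
      rw [hone, norm_one] at h5
      exact lt_irrefl _ h5
    · intro σ
      rw [← hk σ]
      have h2 : r ^ 2 = t ^ 2 := by rw [hr, ht, h1]
      rcases sq_eq_sq_iff_eq_or_eq_neg.1 h2 with h3 | h3
      · rw [h3]
      · rw [h3, map_neg, neg_inj]
  clear hk hloc hsgn hb b ht he8 he t e
  -- the second cocycle
  have hcc2 : Coc χ (fun σ => (1 / 2) * c' σ + (vl χ σ - 1) * (-(1 / 4))) :=
    hcc.twist cd.cont (1 / 2) (-(1 / 4))
  have hodd2 : ∀ (p : ℕ) [Fact p.Prime] (ι : QB →ₐ[ℚ] PadicAlgCl p), p ≠ 2 →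
      CobOn χ (II ι : Set G) (fun σ => (1 / 2) * c' σ + (vl χ σ - 1) * (-(1 / 4))) :=
    fun p _ κ hp => (hodd' p κ hp).twist (1 / 2) (-(1 / 4))
  have hstr2 : ∀ σ ∈ DD ι, (1 / 2) * c' σ + (vl χ σ - 1) * (-(1 / 4)) =
      (vl χ σ - 1) * (-(1 / 4)) := by
    intro σ hσ
    rw [hstr' σ hσ]
    ring
  have hint2 : ∀ σ, ‖(1 / 2) * c' σ + (vl χ σ - 1) * (-(1 / 4))‖ ≤ 1 := by
    intro σ
    have e1 : (1 / 2) * c' σ + (vl χ σ - 1) * (-(1 / 4)) = (c' σ - (vl χ σ - 1) / 2) / 2 := by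
      ring
    have h1 : ‖c' σ - (vl χ σ - 1) / 2‖ < 1 := by
      rcases cd.or σ with h | h
      · have h2 := md_zero.1 ((hrk σ).1 h)
        have h3 : ‖(vl χ σ - 1) / 2‖ < 1 := by
          rw [norm_div, norm_two']
          have := cd.small h
          linarith
        rw [sub_eq_add_neg]
        exact add_lt' h2 (by rwa [norm_neg])
      · have h2 : ¬ ‖c' σ‖ < 1 := by
          intro h3
          have h4 := (hrk σ).2 (md_zero.2 h3)
          rw [h] at h4
          exact ne_neg cd.r0 h4.symm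
        have h3 := (md_eq (hint σ)).1 h2
        have h4 : ‖(vl χ σ - 1) / 2‖ = 1 := by
          rw [norm_div, norm_two', cd.big h]
          norm_num
        have h5 := (md_eq h4.le).1 (by rw [h4]; exact lt_irrefl _)
        have e2 : c' σ - (vl χ σ - 1) / 2 = (c' σ - 1) + -((vl χ σ - 1) / 2 - 1) := by ring
        rw [e2]
        exact add_lt' h3 (by rwa [norm_neg])
    have h2 := norm_lt_one h1
    rw [e1, norm_div, norm_two']
    linarith
  set c₂ : G → ℚ_[2] := fun σ => (1 / 2) * c' σ + (vl χ σ - 1) * (-(1 / 4)) with hc₂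
  have hint3 : ∀ σ, ‖c₂ σ‖ ≤ 1 := hint2
  have hD2 : ∀ σ ∈ DD ι, (md c₂ σ = 0 ↔ σ s₂ = s₂) := by
    intro σ hσ
    rw [← hD8 ι σ hσ, eight_dvd, md_zero, hc₂]
    simp only []
    rw [hstr2 σ hσ, norm_mul, norm_neg]
    have e1 : ‖(1 / 4 : ℚ_[2])‖ = 4 := by
      have e2 : (1 / 4 : ℚ_[2]) = (2 ^ 2)⁻¹ := by norm_num
      rw [e2, norm_inv, norm_pow, norm_two']
      norm_num
    have e3 : (((χ σ : ℤ_[2]) - 1 : ℤ_[2]) : ℚ_[2]) = vl χ σ - 1 := by
      unfold vl
      push_cast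
      rfl
    rw [e1, e3]
    constructor
    · intro h; linarith
    · intro h; linarith
  clear_value c₂
  have hs20 : s₂ ≠ 0 := by
    rintro rfl
    have : (0 : QB) = 2 := by rw [← hs2]; ring
    exact two_ne_zero this.symm
  have hors : ∀ σ : G, σ s₂ = s₂ ∨ σ s₂ = -s₂ := fun σ => root_or' (a := 2) (by rw [hs2]; simp) σ
  have hnes : ¬ -s₂ = s₂ := fun h => ne_neg hs20 h.symm
  set g : G → ZMod 2 := fun σ => if σ s₂ = s₂ then 0 else 1 with hg
  have hgm : ∀ σ τ, g (σ * τ) = g σ + g τ := by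
    intro σ τ
    rw [hg]
    simp only [AlgEquiv.mul_apply]
    rcases hors τ with h2 | h2 <;> rcases hors σ with h1 | h1
    · simp [h1, h2]
    · simp [h1, h2]
    · simp [h1, h2, hnes]
    · simp [h1, h2, hnes]
      decide
  have hgc : IsLocallyConstant g := by
    have ha : IsLocallyConstant fun τ : G => τ s₂ :=
      Pool.Agent.W309.TD.locConst_apply (K := ℚ) (Ω := QB) s₂
    exact ha.comp (fun x : QB => if x = s₂ then (0 : ZMod 2) else 1)
  have hg0 : ∀ σ, g σ = 0 ↔ σ s₂ = s₂ := by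
    intro σ
    rw [hg]
    simp only []
    split_ifs with h
    · simp [h]
    · simp [h]
  have h01 : ∀ x : ZMod 2, x ≠ 0 → x = 1 := by decide
  obtain ⟨e, t, he, he8, ht, hk⟩ := key_or (fun σ => md c₂ σ + g σ)
    ((md_cont hcc2).add hgc) (fun σ τ => by
      show md c₂ (σ * τ) + g (σ * τ) = (md c₂ σ + g σ) + (md c₂ τ + g τ)
      rw [md_mul hcc2 hint3, hgm]
      ring) (ι := ι) (fun σ hσ => by
      show md c₂ σ + g σ = 0
      by_cases h : σ s₂ = s₂
      · rw [(hD2 σ hσ).2 h, (hg0 σ).2 h, add_zero]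
      · rw [h01 _ fun h1 => h ((hD2 σ hσ).1 h1), h01 _ fun h1 => h ((hg0 σ).1 h1)]
        decide)
  have he0 : e ≠ 0 := by
    rintro rfl
    rw [Int.natAbs_zero] at he
    exact not_squarefree_zero he
  have ht0 : t ≠ 0 := by
    rintro rfl
    apply he0
    have h1 : (e : QB) = 0 := by rw [← ht]; ring
    exact_mod_cast h1
  have hort := root_or' ht
  have hnet : ¬ -t = t := fun h => ne_neg ht0 h.symm
  have hst : s₂ * t ≠ 0 := mul_ne_zero hs20 ht0
  have hk2 : ∀ σ : G, σ (s₂ * t) = s₂ * t ↔ md c₂ σ = 0 := by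
    intro σ
    rw [map_mul]
    rcases hors σ with h1 | h1
    · have h2 := (hg0 σ).2 h1
      have h3 := hk σ
      simp only [h2, add_zero] at h3
      rw [h1, ← h3]
      exact mul_right_inj' hs20
    · have h2 : g σ = 1 := h01 _ fun h => hnes (h1.symm.trans ((hg0 σ).1 h))
      have h3 := hk σ
      simp only [h2] at h3
      rw [h1]
      rcases hort σ with h4 | h4
      · have h5 := h3.1 h4
        rw [h4]
        constructor
        · intro h6
          exfalso
          apply hst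
          have h7 : (2 : QB) * (s₂ * t) = 0 := by linear_combination -h6
          exact (mul_eq_zero.1 h7).resolve_left two_ne_zero
        · intro h6
          exfalso
          rw [h6] at h5
          exact absurd h5 (by decide)
      · rw [h4]
        have h5 : ¬ md c₂ σ + 1 = 0 := fun h => hnet (h4.symm.trans (h3.2 h))
        have h6 : md c₂ σ = 0 := by
          by_contra h7
          apply h5
          rw [h01 _ h7]
          decide
        constructor
        · intro _; exact h6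
        · intro _; ring
  obtain ⟨b, hb, hsgn, hloc⟩ := loc_an cd hr hm hcc2 hint3 hodd2 (n := 2) (Or.inr rfl) he he8
    (t := s₂ * t) (by rw [mul_pow, hs2, ht]; push_cast; rfl) hk2
  exact hC.2 e b hb he8 hsgn hloc

end Pool.Agent.L0h36.JS
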